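import Pool.Agent.H30.FCB.StD

open MvPolynomial

namespace FCB

namespace KHYP

variable {ι : Type} [Fintype ι]

lemma D_expand (B : Type) [CommRing B] [Algebra ℂ B] [Algebra (MvPolynomial ι ℂ) B]
    [IsScalarTower ℂ (MvPolynomial ι ℂ) B] (p : MvPolynomial ι ℂ) :
    KaehlerDifferential.D ℂ B (algebraMap (MvPolynomial ι ℂ) B p) =
      ∑ k, algebraMap (MvPolynomial ι ℂ) B (pderiv k p) •
        KaehlerDifferential.D ℂ B (algebraMap (MvPolynomial ι ℂ) B (X k)) := by
  have h := (KaehlerDifferential.mvPolynomialBasis ℂ ι).sum_repr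
    (KaehlerDifferential.D ℂ (MvPolynomial ι ℂ) p)
  have h2 := congrArg (KaehlerDifferential.map ℂ ℂ (MvPolynomial ι ℂ) B) h
  rw [map_sum, KaehlerDifferential.map_D] at h2
  rw [← h2]
  refine Finset.sum_congr rfl fun k _ => ?_
  rw [map_smul, KaehlerDifferential.mvPolynomialBasis_repr_apply,
    KaehlerDifferential.mvPolynomialBasis_apply, KaehlerDifferential.map_D, algebraMap_smul]

lemma der_expand (B : Type) [CommRing B] [Algebra ℂ B] [Algebra (MvPolynomial ι ℂ) B]
    [IsScalarTower ℂ (MvPolynomial ι ℂ) B] (d : Derivation ℂ (MvPolynomial ι ℂ) B)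
    (p : MvPolynomial ι ℂ) :
    d p = ∑ k, algebraMap (MvPolynomial ι ℂ) B (pderiv k p) * d (X k) := by
  have h := (KaehlerDifferential.mvPolynomialBasis ℂ ι).sum_repr
    (KaehlerDifferential.D ℂ (MvPolynomial ι ℂ) p)
  have h2 := congrArg d.liftKaehlerDifferential h
  rw [map_sum, Derivation.liftKaehlerDifferential_comp_D] at h2
  rw [← h2]
  refine Finset.sum_congr rfl fun k _ => ?_
  rw [map_smul, KaehlerDifferential.mvPolynomialBasis_repr_apply,
    KaehlerDifferential.mvPolynomialBasis_apply, Derivation.liftKaehlerDifferential_comp_D,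
    Algebra.smul_def]

variable {Q B : Type} [CommRing Q] [CommRing B] [Algebra ℂ Q] [Algebra (MvPolynomial ι ℂ) Q]
  [Algebra Q B] [Algebra ℂ B] [Algebra (MvPolynomial ι ℂ) B] [IsScalarTower ℂ (MvPolynomial ι ℂ) Q]
  [IsScalarTower ℂ Q B] [IsScalarTower (MvPolynomial ι ℂ) Q B]
  [IsScalarTower ℂ (MvPolynomial ι ℂ) B]

omit [Fintype ι] [IsScalarTower ℂ Q B] [IsScalarTower ℂ (MvPolynomial ι ℂ) B] in
lemma descend (hs : Function.Surjective (algebraMap (MvPolynomial ι ℂ) Q))
    (d : Derivation ℂ (MvPolynomial ι ℂ) B)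
    (hd : ∀ p, algebraMap (MvPolynomial ι ℂ) Q p = 0 → d p = 0) :
    ∃ δ : Derivation ℂ Q B, ∀ p, δ (algebraMap (MvPolynomial ι ℂ) Q p) = d p := by
  classical
  have hw : ∀ p q, algebraMap (MvPolynomial ι ℂ) Q p = algebraMap (MvPolynomial ι ℂ) Q q →
      d p = d q := by
    intro p q h
    rw [← sub_eq_zero, ← map_sub] at h
    have := hd _ h
    rwa [map_sub, sub_eq_zero] at this
  let g : Q → B := fun q => d (Function.surjInv hs q)
  have hg : ∀ p, g (algebraMap (MvPolynomial ι ℂ) Q p) = d p := fun p =>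
    hw _ _ (Function.surjInv_eq hs _)
  have hadd : ∀ a b, g (a + b) = g a + g b := by
    intro a b
    obtain ⟨a, rfl⟩ := hs a
    obtain ⟨b, rfl⟩ := hs b
    rw [← map_add, hg, hg, hg, map_add]
  have hsm : ∀ (z : ℂ) a, g (z • a) = z • g a := by
    intro z a
    obtain ⟨a, rfl⟩ := hs a
    have h1 : z • algebraMap (MvPolynomial ι ℂ) Q a = algebraMap (MvPolynomial ι ℂ) Q (z • a) := by
      rw [Algebra.smul_def, Algebra.smul_def, map_mul,
        IsScalarTower.algebraMap_apply ℂ (MvPolynomial ι ℂ) Q]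
    rw [h1, hg, hg, Derivation.map_smul]
  have hmul : ∀ a b, g (a * b) = a • g b + b • g a := by
    intro a b
    obtain ⟨a, rfl⟩ := hs a
    obtain ⟨b, rfl⟩ := hs b
    rw [← map_mul, hg, hg, hg, d.leibniz, algebraMap_smul, algebraMap_smul]
  exact ⟨Derivation.mk' { toFun := g, map_add' := hadd, map_smul' := hsm } hmul, fun p => hg p⟩

theorem main [DecidableEq ι] (F : MvPolynomial ι ℂ) (i : ι)
    (hs : Function.Surjective (algebraMap (MvPolynomial ι ℂ) Q))
    (hk : ∀ p, algebraMap (MvPolynomial ι ℂ) Q p = 0 → F ∣ p)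
    (h0 : algebraMap (MvPolynomial ι ℂ) B F = 0) (S : Submonoid Q) [IsLocalization S B]
    (hu : IsUnit (algebraMap (MvPolynomial ι ℂ) B (pderiv i F))) :
    ∃ b : Module.Basis {j : ι // j ≠ i} B (Ω[B⁄ℂ]), ∀ j, b j =
      KaehlerDifferential.D ℂ B (algebraMap (MvPolynomial ι ℂ) B (X j.1)) := by
  obtain ⟨u, hu⟩ := hu
  -- the linear forms
  have hform : ∀ j : {j : ι // j ≠ i}, ∃ l : (Ω[B⁄ℂ]) →ₗ[B] B, ∀ k : {j : ι // j ≠ i},
      l (KaehlerDifferential.D ℂ B (algebraMap (MvPolynomial ι ℂ) B (X k.1))) =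
        if k = j then 1 else 0 := by
    intro j
    let f : ι → B := fun k => if k = i then
      -(((u⁻¹ : Bˣ) : B) * algebraMap (MvPolynomial ι ℂ) B (pderiv j.1 F)) else
      if k = j.1 then 1 else 0
    have hdF : mkDerivation ℂ f F = 0 := by
      rw [der_expand]
      simp only [mkDerivation_X]
      rw [← Finset.add_sum_erase _ _ (Finset.mem_univ i),
        ← Finset.add_sum_erase _ _ (Finset.mem_erase.2 ⟨j.2, Finset.mem_univ j.1⟩),
        Finset.sum_eq_zero, add_zero]
      · simp only [f, if_true, if_neg j.2, mul_one]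
        rw [mul_neg, ← mul_assoc, ← hu, Units.mul_inv, one_mul, neg_add_cancel]
      · intro k hk
        simp only [Finset.mem_erase, Finset.mem_univ, and_true] at hk
        simp [f, hk.1, hk.2]
    have hd : ∀ p, algebraMap (MvPolynomial ι ℂ) Q p = 0 → mkDerivation ℂ f p = 0 := by
      intro p hp
      obtain ⟨q, rfl⟩ := hk p hp
      rw [Derivation.leibniz, hdF, smul_zero, add_zero, Algebra.smul_def, h0, zero_mul]
    obtain ⟨δ, hδ⟩ := descend hs (mkDerivation ℂ f) hd
    have := Algebra.FormallyEtale.of_isLocalization (Rₘ := B) S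
    have hbc := KaehlerDifferential.isBaseChange_of_formallyEtale ℂ Q B
    refine ⟨hbc.lift δ.liftKaehlerDifferential, fun k => ?_⟩
    rw [IsScalarTower.algebraMap_apply (MvPolynomial ι ℂ) Q B,
      ← KaehlerDifferential.map_D ℂ ℂ Q B, hbc.lift_eq, Derivation.liftKaehlerDifferential_comp_D,
      hδ, mkDerivation_X]
    simp only [f, if_neg k.2, Subtype.ext_iff]
  -- linear independence
  have hli : LinearIndependent B (fun j : {j : ι // j ≠ i} =>
      KaehlerDifferential.D ℂ B (algebraMap (MvPolynomial ι ℂ) B (X j.1))) := by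
    rw [Fintype.linearIndependent_iff]
    intro g hg j
    obtain ⟨l, hl⟩ := hform j
    have := congrArg l hg
    rw [map_sum, map_zero] at this
    simp only [map_smul, hl] at this
    simpa using this
  -- spanning
  have hsp : ⊤ ≤ Submodule.span B (Set.range (fun j : {j : ι // j ≠ i} =>
      KaehlerDifferential.D ℂ B (algebraMap (MvPolynomial ι ℂ) B (X j.1)))) := by
    have hX : ∀ j : ι, KaehlerDifferential.D ℂ B (algebraMap (MvPolynomial ι ℂ) B (X j)) ∈
        Submodule.span B (Set.range (fun j : {j : ι // j ≠ i} =>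
          KaehlerDifferential.D ℂ B (algebraMap (MvPolynomial ι ℂ) B (X j.1)))) := by
      have h1 : ∀ j : ι, j ≠ i →
          KaehlerDifferential.D ℂ B (algebraMap (MvPolynomial ι ℂ) B (X j)) ∈
          Submodule.span B (Set.range (fun j : {j : ι // j ≠ i} =>
            KaehlerDifferential.D ℂ B (algebraMap (MvPolynomial ι ℂ) B (X j.1)))) :=
        fun j hj => Submodule.subset_span ⟨⟨j, hj⟩, rfl⟩
      intro j
      by_cases hj : j = i
      · subst hj
        have h2 := D_expand B F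
        rw [h0, map_zero, ← Finset.add_sum_erase _ _ (Finset.mem_univ j), ← hu] at h2
        have h3 : KaehlerDifferential.D ℂ B (algebraMap (MvPolynomial ι ℂ) B (X j)) =
            -(((u⁻¹ : Bˣ) : B) • ∑ k ∈ Finset.univ.erase j,
              algebraMap (MvPolynomial ι ℂ) B (pderiv k F) •
              KaehlerDifferential.D ℂ B (algebraMap (MvPolynomial ι ℂ) B (X k))) := by
          have h4 := congrArg (fun x => ((u⁻¹ : Bˣ) : B) • x) h2
          simp only [smul_zero, smul_add, smul_smul, Units.inv_mul, one_smul] at h4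
          rw [eq_neg_iff_add_eq_zero, ← h4]
        rw [h3]
        refine Submodule.neg_mem _ (Submodule.smul_mem _ _ (Submodule.sum_mem _ fun k hk => ?_))
        exact Submodule.smul_mem _ _ (h1 k (Finset.ne_of_mem_erase hk))
      · exact h1 j hj
    rw [← KaehlerDifferential.span_range_map_derivation_of_isLocalization ℂ Q B S,
      Submodule.span_le]
    rintro _ ⟨q, rfl⟩
    obtain ⟨p, rfl⟩ := hs q
    simp only [Function.comp_apply, KaehlerDifferential.map_D]
    rw [← IsScalarTower.algebraMap_apply (MvPolynomial ι ℂ) Q B, D_expand]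
    exact Submodule.sum_mem _ fun k _ => Submodule.smul_mem _ _ (hX k)
  exact ⟨Module.Basis.mk hli hsp, fun j => Module.Basis.mk_apply hli hsp j⟩

end KHYP

theorem khyp : S_KHYP := by
  intro ι _ _ F i S B _ _ _ _ hS hu
  let _ : Algebra (MvPolynomial ι ℂ) B :=
    ((algebraMap (MvPolynomial ι ℂ ⧸ Ideal.span {F}) B).comp
      (Ideal.Quotient.mk (Ideal.span {F}))).toAlgebra
  have t1 : @IsScalarTower (MvPolynomial ι ℂ) (MvPolynomial ι ℂ ⧸ Ideal.span {F}) B
    Algebra.toSMul Algebra.toSMul Algebra.toSMul :=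
    IsScalarTower.of_algebraMap_eq fun p => rfl
  have t2 : IsScalarTower ℂ (MvPolynomial ι ℂ) B := by
    refine IsScalarTower.of_algebraMap_eq fun z => ?_
    rw [IsScalarTower.algebraMap_apply ℂ (MvPolynomial ι ℂ ⧸ Ideal.span {F}) B]
    rfl
  have hal : ∀ p, algebraMap (MvPolynomial ι ℂ) B p =
      algebraMap (MvPolynomial ι ℂ ⧸ Ideal.span {F}) B (Ideal.Quotient.mk _ p) := fun p => rfl
  have hF0 : algebraMap (MvPolynomial ι ℂ) B F = 0 := by
    rw [hal, Ideal.Quotient.eq_zero_iff_mem.2 (Ideal.mem_span_singleton_self F), map_zero]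
  exact KHYP.main (Q := MvPolynomial ι ℂ ⧸ Ideal.span {F}) F i Ideal.Quotient.mk_surjective
    (fun p hp => Ideal.mem_span_singleton.1 (Ideal.Quotient.eq_zero_iff_mem.1 hp)) hF0 S hu

end FCB
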