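import Pool.Agent.H30.FCB.StD

open MvPolynomial

namespace FCB

theorem kpol : S_KPOL := by
  intro ι _ _ S B _ _ _ _ hS
  refine ⟨(KaehlerDifferential.mvPolynomialBasis ℂ ι).ofIsLocalizedModule B S
    (KaehlerDifferential.map ℂ ℂ (MvPolynomial ι ℂ) B), fun j => ?_⟩
  rw [Module.Basis.ofIsLocalizedModule_apply, KaehlerDifferential.mvPolynomialBasis_apply,
    KaehlerDifferential.map_D]

end FCB
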