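import Pool.Agent.H30.FCB.StD

namespace FCB

theorem lady : S_LADY := by
  intro K V N N' _ _ _ _ _ _ _ n p q P Q e e' b b' hPQ hQP hp hb hb'
  have hA : P.submatrix e e' * Q.submatrix e' e = 1 := by
    rw [Matrix.submatrix_mul_equiv, hPQ, Matrix.submatrix_one_equiv]
  have hdet : IsUnit (P.submatrix e e').det := by
    have := congrArg Matrix.det hA
    rw [Matrix.det_mul, Matrix.det_one] at this
    exact IsUnit.of_mul_eq_one _ this
  have hM : b'.toMatrix b = ((Int.castRingHom K).mapMatrix (P.submatrix e e')).transpose := by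
    ext i j
    rw [Module.Basis.toMatrix_apply, hb, hp, ← e'.sum_comp]
    simp only [← hb', map_sum, map_smul, Module.Basis.repr_self, Finsupp.coe_finsetSum,
      Finsupp.coe_smul, Finset.sum_apply, Pi.smul_apply, Finsupp.single_apply, smul_eq_mul,
      mul_ite, mul_one, mul_zero, Finset.sum_ite_eq', Finset.mem_univ, if_true]
    simp [Matrix.transpose_apply]
  rw [Module.Basis.det_apply, hM, Matrix.det_transpose, ← RingHom.map_det]
  rcases Int.isUnit_iff.1 hdet with h | h
  · left; rw [h]; simp
  · right; rw [h]; simp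

end FCB
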