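import Pool.Agent.H30.FCB.StD

open AlgebraicGeometry CategoryTheory

namespace FCB

namespace LOCC

/-- transport of a basis of differentials along a localisation -/
lemma loc {A B : Type} [CommRing A] [CommRing B] [Algebra ℂ A] [Algebra ℂ B] [Algebra A B]
    [IsScalarTower ℂ A B] (S : Submonoid A) [IsLocalization S B] {n : ℕ} (t : Fin n → A)
    (b : Module.Basis (Fin n) A (Ω[A⁄ℂ])) (hb : ∀ i, b i = KaehlerDifferential.D ℂ A (t i)) :
    ∃ b' : Module.Basis (Fin n) B (Ω[B⁄ℂ]), ∀ i, b' i =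
      KaehlerDifferential.D ℂ B (algebraMap A B (t i)) := by
  refine ⟨b.ofIsLocalizedModule B S (KaehlerDifferential.map ℂ ℂ A B), fun j => ?_⟩
  rw [Module.Basis.ofIsLocalizedModule_apply, hb, KaehlerDifferential.map_D]

lemma equiv {A B : Type} [CommRing A] [CommRing B] [Algebra ℂ A] [Algebra ℂ B]
    (e : A ≃ₐ[ℂ] B) {n : ℕ} (t : Fin n → A)
    (b : Module.Basis (Fin n) A (Ω[A⁄ℂ])) (hb : ∀ i, b i = KaehlerDifferential.D ℂ A (t i)) :
    ∃ b' : Module.Basis (Fin n) B (Ω[B⁄ℂ]), ∀ i, b' i = KaehlerDifferential.D ℂ B (e (t i)) := by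
  let _ : Algebra A B := e.toAlgHom.toRingHom.toAlgebra
  have : IsScalarTower ℂ A B := IsScalarTower.of_algebraMap_eq fun z => (e.commutes z).symm
  have : IsLocalization (⊥ : Submonoid A) B := by
    refine IsLocalization.of_le_isUnit_of_bijective ?_ e.bijective
    rintro _ ⟨x, hx, rfl⟩
    rw [SetLike.mem_coe, Submonoid.mem_bot] at hx
    subst hx
    simp
  exact loc (⊥ : Submonoid A) t b hb

lemma away {A G G' : Type} [CommRing A] [CommRing G] [CommRing G'] [Algebra ℂ A] [Algebra ℂ G']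
    [Algebra G G'] (e : G ≃+* A) (h : A) [IsLocalization.Away (e.symm h) G']
    (hC : ∀ z : ℂ, algebraMap ℂ G' z = algebraMap G G' (e.symm (algebraMap ℂ A z)))
    {n : ℕ} (t : Fin n → A)
    (b : Module.Basis (Fin n) (Localization.Away h) (Ω[Localization.Away h⁄ℂ]))
    (hb : ∀ i, b i = KaehlerDifferential.D ℂ (Localization.Away h)
      (algebraMap A (Localization.Away h) (t i))) :
    ∃ b' : Module.Basis (Fin n) G' (Ω[G'⁄ℂ]), ∀ i, b' i =
      KaehlerDifferential.D ℂ G' (algebraMap G G' (e.symm (t i))) := by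
  let _ : Algebra A G' := ((algebraMap G G').comp e.symm.toRingHom).toAlgebra
  have h1 : IsLocalization.Away h G' := by
    have h2 := IsLocalization.isLocalization_of_base_ringEquiv
      (Submonoid.powers (e.symm h)) G' e
    rw [Submonoid.map_powers] at h2
    have h3 : e.toMonoidHom (e.symm h) = h := e.apply_symm_apply h
    rw [IsLocalization.Away]
    convert h2
    exact h3.symm
  have : IsScalarTower ℂ A G' := IsScalarTower.of_algebraMap_eq fun z => hC z
  let f := (IsLocalization.algEquiv (Submonoid.powers h) (Localization.Away h) G').restrictScalars ℂ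
  obtain ⟨b', hb'⟩ := equiv f _ b hb
  refine ⟨b', fun i => ?_⟩
  rw [hb']
  congr 1
  exact (IsLocalization.algEquiv (Submonoid.powers h) (Localization.Away h) G').commutes (t i)

lemma germ_sec {X : Scheme.{0}} [IsIntegral X] (s : X ⟶ Spec (.of ℂ)) (U : X.Opens) [Nonempty U]
    (z : ℂ) : X.germToFunctionField U (secHom s U z) = ffHom s z := by
  change (X.presheaf.germ U _ _) ((X.presheaf.map (homOfLE le_top).op)
    (s.appTop ((Scheme.ΓSpecIso (.of ℂ)).inv z))) =
    (X.presheaf.germ ⊤ _ _) ((X.presheaf.map (homOfLE le_top).op)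
    (s.appTop ((Scheme.ΓSpecIso (.of ℂ)).inv z)))
  rw [TopCat.Presheaf.germ_res_apply]
  exact (TopCat.Presheaf.germ_res_apply X.presheaf (homOfLE (le_top : (⊤ : X.Opens) ≤ ⊤)) _ _ _).symm

lemma res_sec {X : Scheme.{0}} (s : X ⟶ Spec (.of ℂ)) (U V : X.Opens) (h : V ≤ U)
    (z : ℂ) : X.presheaf.map (homOfLE h).op (secHom s U z) = secHom s V z := by
  change (X.presheaf.map (homOfLE h).op) ((X.presheaf.map (homOfLE le_top).op)
    (s.appTop ((Scheme.ΓSpecIso (.of ℂ)).inv z))) =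
    (X.presheaf.map (homOfLE le_top).op)
    (s.appTop ((Scheme.ΓSpecIso (.of ℂ)).inv z))
  rw [← CategoryTheory.comp_apply, ← Functor.map_comp]
  rfl

end LOCC

theorem locc : S_LOCC := by
  intro R ι C r _ _ _ _ D M c x hx h n t hh ⟨b, hb⟩
  let _ : Algebra ℂ M.X.functionField := (ffHom M.str).toAlgebra
  let s0 : Γ(M.X, M.U c) := (M.iso c).symm h
  have hxU : x ∈ M.X.basicOpen s0 := by
    rw [Scheme.mem_basicOpen _ _ _ hx]
    by_contra hu
    exact hh ((IsLocalRing.mem_maximalIdeal _).2 hu)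
  have hne : Nonempty (M.X.basicOpen s0) := ⟨⟨x, hxU⟩⟩
  have hle : M.X.basicOpen s0 ≤ M.U c := M.X.basicOpen_le s0
  have haff : IsAffineOpen (M.X.basicOpen s0) := (M.aff c).basicOpen s0
  have hloc : IsLocalization.Away s0 Γ(M.X, M.X.basicOpen s0) := (M.aff c).isLocalization_basicOpen s0
  let _ : Algebra ℂ Γ(M.X, M.X.basicOpen s0) := (secHom M.str (M.X.basicOpen s0)).toAlgebra
  have hisoC : ∀ z : ℂ, (M.iso c).symm (algebraMap ℂ (D.chart c) z) = secHom M.str (M.U c) z := by
    intro z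
    rw [RingEquiv.symm_apply_eq]
    apply Subtype.ext
    rw [M.iso_emb, LOCC.germ_sec, M.emb_C]
    rfl
  have hC : ∀ z : ℂ, algebraMap ℂ Γ(M.X, M.X.basicOpen s0) z =
      algebraMap Γ(M.X, M.U c) Γ(M.X, M.X.basicOpen s0)
        ((M.iso c).symm (algebraMap ℂ (D.chart c) z)) := by
    intro z
    rw [hisoC]
    exact (LOCC.res_sec M.str (M.U c) (M.X.basicOpen s0) hle z).symm
  obtain ⟨b', hb'⟩ := LOCC.away (M.iso c) h hC t b hb
  have hfr : IsFractionRing Γ(M.X, M.X.basicOpen s0) M.X.functionField :=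
    functionField_isFractionRing_of_isAffineOpen M.X _ haff
  have htow : IsScalarTower ℂ Γ(M.X, M.X.basicOpen s0) M.X.functionField :=
    IsScalarTower.of_algebraMap_eq fun z => (LOCC.germ_sec M.str (M.X.basicOpen s0) z).symm
  obtain ⟨c', hc'⟩ := LOCC.loc (A := Γ(M.X, M.X.basicOpen s0)) (B := M.X.functionField)
    (nonZeroDivisors Γ(M.X, M.X.basicOpen s0)) _ b' hb'
  refine ⟨M.X.basicOpen s0, hne, fun i => algebraMap Γ(M.X, M.U c) Γ(M.X, M.X.basicOpen s0)
        ((M.iso c).symm (t i)), c', haff, hxU, ⟨b', hb'⟩, fun i => ?_, fun i => hc' i⟩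
  have h1 : M.X.germToFunctionField (M.X.basicOpen s0)
      (algebraMap Γ(M.X, M.U c) Γ(M.X, M.X.basicOpen s0) ((M.iso c).symm (t i))) =
      M.X.germToFunctionField (M.U c) ((M.iso c).symm (t i)) :=
    TopCat.Presheaf.germ_res_apply M.X.presheaf (homOfLE hle) _ _ _
  rw [h1, ← M.iso_emb, RingEquiv.apply_symm_apply]

end FCB
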