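import Pool.Agent.H30.FCB.StD

open MvPolynomial AlgebraicGeometry

namespace FCB

namespace X1CH

section
variable {B : Type} [CommRing B] [Algebra ℂ B] (T : CX → B)

lemma p2 (l : CX) : pderiv l (2 : MvPolynomial CX ℂ) = 0 := by
  have := (pderiv l : Derivation ℂ (MvPolynomial CX ℂ) (MvPolynomial CX ℂ)).map_natCast 2
  simpa using this

lemma evF : aeval T FX = T .x ^ 2 + (2 * T .z * T .a * T .b + (T (.y 0) * T (.y 1) - T (.y 2) ^ 2) *
    (T .w ^ 2 * T .a ^ 2 + T .v ^ 2 * T .b ^ 2)) := by
  simp [FX, GX, eP]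

lemma evx : aeval T (pderiv .x FX) = 2 * T .x := by
  simp [FX, GX, eP, pderiv_X, p2, Derivation.leibniz, Derivation.leibniz_pow]

lemma evz : aeval T (pderiv .z FX) = 2 * T .a * T .b := by
  simp [FX, GX, eP, pderiv_X, p2, Derivation.leibniz, Derivation.leibniz_pow]
  ring

lemma evw : aeval T (pderiv .w FX) =
    (T (.y 0) * T (.y 1) - T (.y 2) ^ 2) * (2 * T .w * T .a ^ 2) := by
  simp [FX, GX, eP, pderiv_X, p2, Derivation.leibniz, Derivation.leibniz_pow]
  ring

lemma evv : aeval T (pderiv .v FX) =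
    (T (.y 0) * T (.y 1) - T (.y 2) ^ 2) * (2 * T .v * T .b ^ 2) := by
  simp [FX, GX, eP, pderiv_X, p2, Derivation.leibniz, Derivation.leibniz_pow]
  ring

lemma eva : aeval T (pderiv .a FX) = 2 * T .z * T .b +
    (T (.y 0) * T (.y 1) - T (.y 2) ^ 2) * (T .w ^ 2 * (2 * T .a)) := by
  simp [FX, GX, eP, pderiv_X, p2, Derivation.leibniz, Derivation.leibniz_pow]
  ring

lemma evb : aeval T (pderiv .b FX) = 2 * T .z * T .a +
    (T (.y 0) * T (.y 1) - T (.y 2) ^ 2) * (T .v ^ 2 * (2 * T .b)) := by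
  simp [FX, GX, eP, pderiv_X, p2, Derivation.leibniz, Derivation.leibniz_pow]

lemma evy0 : aeval T (pderiv (.y 0) FX) = T (.y 1) *
    (T .w ^ 2 * T .a ^ 2 + T .v ^ 2 * T .b ^ 2) := by
  simp [FX, GX, eP, pderiv_X, p2, Derivation.leibniz, Derivation.leibniz_pow]
  ring

lemma evy1 : aeval T (pderiv (.y 1) FX) = T (.y 0) *
    (T .w ^ 2 * T .a ^ 2 + T .v ^ 2 * T .b ^ 2) := by
  simp [FX, GX, eP, pderiv_X, p2, Derivation.leibniz, Derivation.leibniz_pow]
  ring

lemma jac (c : ChX) (hc : c.2.2 ≠ 4) (h1 : ∀ l ∈ uX c, T l = 1) (hF : aeval T FX = 0)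
    (hd : ∀ l, l ∉ uX c → aeval T (pderiv l FX) = 0) : (1 : B) = 0 := by
  obtain ⟨i, j, k⟩ := c
  have hi : (2 : B) * algebraMap ℂ B (1 / 2) = 1 := by
    have : (2 : B) = algebraMap ℂ B 2 := (map_ofNat (algebraMap ℂ B) 2).symm
    rw [this, ← map_mul]
    norm_num
  generalize hh : algebraMap ℂ B (1 / 2) = h at hi
  rw [evF] at hF
  have hx := hd .x
  have hz := hd .z
  have hw := hd .w
  have hv := hd .v
  have ha := hd .a
  have hb := hd .b
  have h0 := hd (.y 0)
  have h1' := hd (.y 1)
  rw [evx] at hx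
  rw [evz] at hz
  rw [evw] at hw
  rw [evv] at hv
  rw [eva] at ha
  rw [evb] at hb
  rw [evy0] at h0
  rw [evy1] at h1'
  have uy : T (.y j) = 1 := h1 _ (by simp [uX])
  fin_cases k
  · -- w, v, a
    have ew : T .w = 1 := h1 _ (by simp [uX])
    have ev : T .v = 1 := h1 _ (by simp [uX])
    have ea : T .a = 1 := h1 _ (by simp [uX])
    specialize hx (by simp [uX])
    specialize hz (by simp [uX])
    have ex : T .x = 0 := by linear_combination h * hx - T .x * hi
    have eb : T .b = 0 := by rw [ea] at hz; linear_combination h * hz - T .b * hi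
    rw [ew, ev, ea, ex, eb] at hF
    rw [ew, ev, ea, eb] at h0 h1'
    fin_cases j
    · specialize h1' (by simp [uX])
      simp only [Fin.zero_eta, Fin.isValue] at uy
      rw [uy] at h1'
      linear_combination h1'
    · specialize h0 (by simp [uX])
      simp only [Fin.mk_one, Fin.isValue] at uy
      rw [uy] at h0
      linear_combination h0
    · specialize h1' (by simp [uX])
      have uy' : T (.y 2) = 1 := uy
      have e0 : T (.y 0) = 0 := by linear_combination h1'
      rw [e0, uy'] at hF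
      linear_combination -hF
  · -- w, v, b
    have ew : T .w = 1 := h1 _ (by simp [uX])
    have ev : T .v = 1 := h1 _ (by simp [uX])
    have eb : T .b = 1 := h1 _ (by simp [uX])
    specialize hx (by simp [uX])
    specialize hz (by simp [uX])
    have ex : T .x = 0 := by linear_combination h * hx - T .x * hi
    have ea : T .a = 0 := by rw [eb] at hz; linear_combination h * hz - T .a * hi
    rw [ew, ev, ea, ex, eb] at hF
    rw [ew, ev, ea, eb] at h0 h1'
    fin_cases j
    · specialize h1' (by simp [uX])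
      simp only [Fin.zero_eta, Fin.isValue] at uy
      rw [uy] at h1'
      linear_combination h1'
    · specialize h0 (by simp [uX])
      simp only [Fin.mk_one, Fin.isValue] at uy
      rw [uy] at h0
      linear_combination h0
    · specialize h1' (by simp [uX])
      have uy' : T (.y 2) = 1 := uy
      have e0 : T (.y 0) = 0 := by linear_combination h1'
      rw [e0, uy'] at hF
      linear_combination -hF
  · -- z, v, b
    have ez : T .z = 1 := h1 _ (by simp [uX])
    have ev : T .v = 1 := h1 _ (by simp [uX])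
    have eb : T .b = 1 := h1 _ (by simp [uX])
    specialize ha (by simp [uX])
    specialize hw (by simp [uX])
    rw [ez, eb] at ha
    have ea : T .a = 0 := by
      linear_combination h * T .a * ha - h * T .w * hw - T .a * hi
    rw [ea] at ha
    linear_combination h * ha - hi
  · -- z, w, a
    have ez : T .z = 1 := h1 _ (by simp [uX])
    have ew : T .w = 1 := h1 _ (by simp [uX])
    have ea : T .a = 1 := h1 _ (by simp [uX])
    specialize hb (by simp [uX])
    specialize hv (by simp [uX])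
    rw [ez, ea] at hb
    have eb : T .b = 0 := by
      linear_combination h * T .b * hb - h * T .v * hv - T .b * hi
    rw [eb] at hb
    linear_combination h * hb - hi
  · exact absurd rfl hc

end

/-- the substitution of the dehomogenisation -/
noncomputable def su (c : ChX) (j : CX) : MvPolynomial {j : CX // j ∉ uX c} ℂ :=
  if h : j ∈ uX c then (1 : MvPolynomial {j : CX // j ∉ uX c} ℂ) else X ⟨j, h⟩

lemma FXc_eq (c : ChX) : FXc c = aeval (su c) FX := rfl

lemma pderiv_su (c : ChX) (i : {j : CX // j ∉ uX c}) (P : MvPolynomial CX ℂ) :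
    pderiv i (aeval (su c) P) = aeval (su c) (pderiv i.1 P) := by
  induction P using MvPolynomial.induction_on with
  | C a => simp
  | add p q hp hq => rw [map_add, map_add, map_add, map_add, hp, hq]
  | mul_X p n hp =>
    rw [map_mul, Derivation.leibniz, Derivation.leibniz, hp, map_add, smul_eq_mul, smul_eq_mul,
      smul_eq_mul, smul_eq_mul, map_mul, map_mul, aeval_X]
    congr 2
    by_cases hn : n ∈ uX c
    · have h1 : su c n = 1 := dif_pos hn
      have h2 : n ≠ i.1 := fun h => i.2 (h ▸ hn)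
      rw [h1, pderiv_X_of_ne h2]
      simp
    · have h1 : su c n = X ⟨n, hn⟩ := dif_neg hn
      rw [h1]
      by_cases h2 : n = i.1
      · have h3 : (⟨n, hn⟩ : {j : CX // j ∉ uX c}) = i := Subtype.ext h2
        rw [h3, h2, pderiv_X_self, pderiv_X_self, map_one]
      · have h3 : (⟨n, hn⟩ : {j : CX // j ∉ uX c}) ≠ i := fun h => h2 (congrArg Subtype.val h)
        rw [pderiv_X_of_ne h2, pderiv_X_of_ne h3, map_zero]

end X1CH

open X1CH in
theorem x1ch (hpd1 : S_PD1) (hpd3 : S_PD3) (hprs : S_PRSX) : S_X1CH := by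
  intro _ _ hL M p
  -- a unimodular chart
  have hch : ∃ (c : ChX), p.1 ∈ M.U c ∧ c.2.2 ≠ 4 := by
    obtain ⟨c0, hc0⟩ := M.cov p.1
    by_cases h4 : c0.2.2 = 4
    · obtain ⟨π, g, hπ⟩ := hpd1 RX CX ChX 5 DX hL M p
      have h3 := (hpd3 RX CX ChX 5 DX hL M p p π π g g hπ hπ).2
      obtain ⟨i, j, k⟩ := c0
      change k = 4 at h4
      subst h4
      have h5 := (h3 _).1 hc0
      have ht : ¬ π ∣ DX.X (.t i) := h5 _ (by simp [DX, uX])
      have hy : ¬ π ∣ DX.X (.y j) := h5 _ (by simp [DX, uX])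
      have hz : ¬ π ∣ DX.X .z := h5 _ (by simp [DX, uX])
      have ha : ¬ π ∣ DX.X .a := h5 _ (by simp [DX, uX])
      have hb : ¬ π ∣ DX.X .b := h5 _ (by simp [DX, uX])
      by_cases hw : π ∣ DX.X .w
      · by_cases hv : π ∣ DX.X .v
        · exfalso
          have a1 : Associated π (DX.X .w) := hπ.1.associated_of_dvd (hL.prime _) hw
          have a2 : Associated π (DX.X .v) := hπ.1.associated_of_dvd (hL.prime _) hv
          exact hL.nonassoc .w .v (by simp) (a1.symm.trans a2)
        · refine ⟨(i, j, 2), (h3 _).2 ?_, by simp⟩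
          intro l hl
          change l ∈ uX (i, j, 2) at hl
          simp only [uX, Finset.mem_union, Finset.mem_insert, Finset.mem_singleton] at hl
          rcases hl with (rfl | rfl) | rfl | rfl | rfl <;> assumption
      · refine ⟨(i, j, 3), (h3 _).2 ?_, by simp⟩
        intro l hl
        change l ∈ uX (i, j, 3) at hl
        simp only [uX, Finset.mem_union, Finset.mem_insert, Finset.mem_singleton] at hl
        rcases hl with (rfl | rfl) | rfl | rfl | rfl <;> assumption
    · exact ⟨c0, hc0, h4⟩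
  obtain ⟨c, hp, hc⟩ := hch
  refine ⟨c, hp, ?_⟩
  by_contra hcon
  push Not at hcon
  have hcon2 : ∀ i : {j : CX // j ∉ uX c}, ∃ a : DX.chart c,
      (a : FractionRing RX) = aeval (fun j : {j : CX // j ∉ uX c} => DX.co c j.1)
        (pderiv i (FXc c)) ∧ a ∈ M.pr c p.1 hp := fun i => hcon i hc
  obtain ⟨φ, h1, h2, h3⟩ := hprs c hc
  have hφ : φ = aeval (fun j : {j : CX // j ∉ uX c} => DX.co c j.1) := by
    ext j
    rw [h1, aeval_X]
  let ψ : MvPolynomial {j : CX // j ∉ uX c} ℂ →ₐ[ℂ] DX.chart c :=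
    φ.codRestrict (DX.chart c) (fun q => h2 ▸ ⟨q, rfl⟩)
  have hψ : ∀ q, ((ψ q : DX.chart c) : FractionRing RX) = φ q := fun q => rfl
  have hprime : (M.pr c p.1 hp).IsPrime := by
    unfold PreModel.pr
    exact Ideal.IsPrime.comap _
  let m : MvPolynomial CX ℂ →ₐ[ℂ] (DX.chart c ⧸ M.pr c p.1 hp) :=
    ((Ideal.Quotient.mkₐ ℂ (M.pr c p.1 hp)).comp ψ).comp (aeval (su c))
  have hm : m = aeval (fun l => m (X l)) := by
    ext l
    rw [aeval_X]
  have key : (1 : DX.chart c ⧸ M.pr c p.1 hp) = 0 := by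
    refine jac (fun l => m (X l)) c hc ?_ ?_ ?_
    · intro l hl
      change Ideal.Quotient.mkₐ ℂ (M.pr c p.1 hp) (ψ (aeval (su c) (X l))) = 1
      have h1 : su c l = 1 := dif_pos hl
      rw [aeval_X, h1, map_one, map_one]
    · rw [← hm]
      change Ideal.Quotient.mkₐ ℂ (M.pr c p.1 hp) (ψ (aeval (su c) FX)) = 0
      have h4 : ψ (FXc c) = 0 := by
        apply Subtype.ext
        rw [hψ]
        have h5 : FXc c ∈ RingHom.ker φ.toRingHom := by
          rw [h3]; exact Ideal.mem_span_singleton_self _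
        exact h5
      rw [← FXc_eq, h4, map_zero]
    · intro l hl
      rw [← hm]
      change Ideal.Quotient.mkₐ ℂ (M.pr c p.1 hp) (ψ (aeval (su c) (pderiv l FX))) = 0
      obtain ⟨a, ha1, ha2⟩ := hcon2 ⟨l, hl⟩
      rw [← pderiv_su c ⟨l, hl⟩, ← FXc_eq]
      have h5 : ψ (pderiv ⟨l, hl⟩ (FXc c)) = a := by
        apply Subtype.ext
        rw [hψ, ha1, hφ]
      rw [h5]
      exact Ideal.Quotient.eq_zero_iff_mem.2 ha2
  have : Nontrivial (DX.chart c ⧸ M.pr c p.1 hp) := Ideal.Quotient.nontrivial_iff.2 hprime.ne_top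
  exact one_ne_zero key

end FCB
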